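import Pool.Agent.ATT.Stmts

/-! Tank ATT, rows PEB, MSR: bounds from `pe`; the noise of a kill run. -/

set_option autoImplicit false

open MeasureTheory ProbabilityTheory Function Filter

open scoped ENNReal BigOperators Topology NNReal Matrix

noncomputable section

namespace Pool.Agent.ATT.H41

open Pool.Agent.ANP (Cfg gm Att)

lemma peb_1 (x : ℝ) : Real.exp |x| ≤ 2 * Real.cosh x := by
  rw [← Real.cosh_abs, Real.cosh_eq]
  have := Real.exp_pos (-|x|)
  linarith

theorem peb : PebStmt := by
  intro l B ε z hl
  have h0 : 0 ≤ pe l B z := by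
    rw [pe]
    have h1 := Real.cosh_pos (l * z.re)
    have h2 := Real.cosh_pos (l * z.im)
    positivity
  refine ⟨h0, fun hB h => ?_⟩
  have key : ∀ x y : ℝ, 2 * Real.exp (B - l * ε) * (Real.cosh (l * x) + Real.cosh (l * y)) < 1 →
      |x| < ε := by
    intro x y hxy
    have h1 := Real.cosh_pos (l * y)
    have h2 := peb_1 (l * x)
    have h3 := Real.exp_pos (B - l * ε)
    have h4 : Real.exp (B - l * ε) * Real.exp |l * x| < 1 := by
      have h5 : Real.exp (B - l * ε) * Real.exp |l * x| ≤
          Real.exp (B - l * ε) * (2 * Real.cosh (l * x)) := mul_le_mul_of_nonneg_left h2 h3.le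
      have h6 := mul_pos h3 h1
      nlinarith
    rw [← Real.exp_add, Real.exp_lt_one_iff, abs_mul, abs_of_pos hl] at h4
    have h5 : l * |x| < l * ε := by linarith
    exact lt_of_mul_lt_mul_left h5 hl.le
  have hre := key z.re z.im h
  have him := key z.im z.re (by rw [add_comm (Real.cosh (l * z.im))]; exact h)
  exact (Complex.norm_le_abs_re_add_abs_im z).trans (by linarith)

theorem msr : MsrStmt := by
  intro X _ _ T D v F hF hT
  have h1 : (Measure.pi fun x => gaussianReal 0 (T.kv D x)).map D.restrict =
      Measure.pi fun i : D => gaussianReal 0 (T.kv D i) := by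
    rw [← Measure.infinitePi_eq_pi, Measure.infinitePi_map_restrict]
  have h2 : (fun i : D => gaussianReal 0 (T.kv D i)) = fun _ : D => gaussianReal 0 v := by
    funext i
    rw [Cfg.kv, if_pos i.2, hT i i.2]
  have h3 : Measurable (D.restrict : (X → ℝ) → (D → ℝ)) := D.measurable_restrict
  rw [← h2, ← h1, lintegral_map hF h3]
  rfl

end Pool.Agent.ATT.H41
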